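import Pool.Agent.Q202.KS.Sum
import Pool.Agent.Q202.LT.Fin

set_option autoImplicit false
set_option linter.unusedSectionVars false

/-! Splitting off the part extended from the integers. -/

namespace Pool.Agent.Q202.KS

open MonoidAlgebra Pool.Agent.Y75.SV Pool.Agent.Y75.EK

variable {G : Type} [Group G]

section aug

/-- the augmentation -/
noncomputable def aug (G : Type) [Group G] : MonoidAlgebra ℤ G →+* ℤ :=
  (MonoidAlgebra.lift ℤ ℤ G (1 : G →* ℤ)).toRingHom

theorem aug_single (g : G) (z : ℤ) : aug G (single g z) = z := by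
  simp [aug]

theorem aug_eq (a : MonoidAlgebra ℤ G) : aug G a = a.coeff.sum fun _ z => z := by
  induction a using MonoidAlgebra.induction_linear with
  | zero => simp
  | add x y hx hy =>
    rw [map_add, hx, hy, coeff_add, Finsupp.sum_add_index'] <;> simp
  | single g z =>
    rw [aug_single, coeff_single, Finsupp.sum_single_index rfl]

theorem aug_symm (a b : MonoidAlgebra ℤ G) (h : ∀ g, b.coeff g = a.coeff g⁻¹) :
    aug G b = aug G a := by
  rw [aug_eq, aug_eq, Finsupp.sum, Finsupp.sum]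
  refine Finset.sum_bij (fun g _ => g⁻¹) ?_ ?_ ?_ ?_
  · intro g hg
    rw [Finsupp.mem_support_iff] at hg ⊢
    rwa [← h]
  · intro g _ g' _ hgg
    exact inv_injective hgg
  · intro g hg
    refine ⟨g⁻¹, ?_, inv_inv g⟩
    rw [Finsupp.mem_support_iff] at hg ⊢
    rwa [h, inv_inv]
  · intro g _
    exact h g

variable {M : Type} [AddCommGroup M] [Module (MonoidAlgebra ℤ G) M]

theorem aug_val_symm (φ : HermForm G M) (x y : M) : aug G (φ.val y x) = aug G (φ.val x y) :=
  aug_symm _ _ fun g => φ.herm x y g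

theorem aug_val_smul (φ : HermForm G M) (a b : MonoidAlgebra ℤ G) (x y : M) :
    aug G (φ.val (a • x) (b • y)) = aug G a * aug G b * aug G (φ.val x y) := by
  rw [φ.smul_left, map_mul, ← aug_val_symm, φ.smul_left, map_mul, aug_val_symm]
  ring

end aug

section

variable {M : Type} [AddCommGroup M] [Module (MonoidAlgebra ℤ G) M]
  {N : Type} [AddCommGroup N] [Module (MonoidAlgebra ℤ G) N]

/-- In a suitable basis the form has the integral matrix `A`. -/
def HasMatrix (φ : HermForm G M) {k : ℕ} (A : Matrix (Fin k) (Fin k) ℤ) : Prop :=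
  ∃ b : Module.Basis (Fin k) (MonoidAlgebra ℤ G) M, ∀ i j, φ.val (b i) (b j) = single 1 (A i j)

theorem congruent {φ : HermForm G M} {ψ : HermForm G N} {k l : ℕ}
    {A : Matrix (Fin k) (Fin k) ℤ} {C : Matrix (Fin l) (Fin l) ℤ} (hA : HasMatrix φ A)
    (hC : HasMatrix ψ C) (h : Isometric φ ψ) :
    ∃ (U : Matrix (Fin k) (Fin l) ℤ) (V : Matrix (Fin l) (Fin k) ℤ),
      U * V = 1 ∧ V * U = 1 ∧ A = U * C * U.transpose := by
  classical
  obtain ⟨b, hb⟩ := hA
  obtain ⟨c, hc⟩ := hC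
  obtain ⟨α, hα⟩ := h
  have key : ∀ {M : Type} [AddCommGroup M] [Module (MonoidAlgebra ℤ G) M]
      {N : Type} [AddCommGroup N] [Module (MonoidAlgebra ℤ G) N] {k l : ℕ}
      (b : Module.Basis (Fin k) (MonoidAlgebra ℤ G) M)
      (c : Module.Basis (Fin l) (MonoidAlgebra ℤ G) N) (α : M ≃ₗ[MonoidAlgebra ℤ G] N),
      (Matrix.of fun i j => aug G (c.repr (α (b i)) j) : Matrix (Fin k) (Fin l) ℤ)
        * (Matrix.of fun j i => aug G (b.repr (α.symm (c j)) i)) = 1 := by
    intro M _ _ N _ _ k l b c α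
    ext i m
    rw [Matrix.mul_apply]
    simp only [Matrix.of_apply]
    have h1 : b i = ∑ j, (c.repr (α (b i)) j) • α.symm (c j) := by
      have h2 := congrArg α.symm (c.sum_repr (α (b i)))
      rw [map_sum, α.symm_apply_apply] at h2
      simp only [map_smul] at h2
      exact h2.symm
    have h3 := congrArg (fun x => b.repr x m) h1
    simp only [map_sum, map_smul, Finsupp.finsetSum_apply, Finsupp.smul_apply, smul_eq_mul,
      Module.Basis.repr_self] at h3
    have h4 := congrArg (aug G) h3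
    rw [map_sum] at h4
    simp only [map_mul] at h4
    rw [← h4, Finsupp.single_apply, Matrix.one_apply]
    split_ifs <;> simp
  refine ⟨_, _, key b c α, ?_, ?_⟩
  · have := key c b α.symm
    rw [α.symm_symm] at this
    exact this
  · ext i j
    have h1 : ∀ i, α (b i) = ∑ l, (c.repr (α (b i)) l) • c l := fun i => (c.sum_repr _).symm
    have h2 : A i j = aug G (ψ.val (α (b i)) (α (b j))) := by
      rw [hα, hb, aug_single]
    rw [h2, h1 i, h1 j, val_sum_left, map_sum, Matrix.mul_apply]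
    simp only [Matrix.mul_apply, Finset.sum_mul, Matrix.transpose_apply, Matrix.of_apply]
    rw [Finset.sum_comm]
    refine Finset.sum_congr rfl fun p _ => ?_
    rw [val_sum_right, map_sum]
    refine Finset.sum_congr rfl fun q _ => ?_
    rw [aug_val_smul, hc, aug_single]
    ring

theorem finPart_map {φ : HermForm G M} {ψ : HermForm G N} (α : M ≃ₗ[MonoidAlgebra ℤ G] N)
    (hα : ∀ x y, ψ.val (α x) (α y) = φ.val x y) :
    φ.finPart.map α.toLinearMap ≤ ψ.finPart := by
  unfold HermForm.finPart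
  rw [Submodule.map_span_le]
  rintro x ⟨A, hA, hAs, hx⟩
  refine Submodule.subset_span ⟨A.map α.toAddEquiv.toAddMonoidHom, ?_, ?_, ⟨x, hx, rfl⟩⟩
  · obtain ⟨S, hS⟩ := hA
    classical
    refine ⟨S.image α, ?_⟩
    rw [← hS, AddMonoidHom.map_closure, Finset.coe_image]
    rfl
  · intro y
    obtain ⟨a, ha, h1⟩ := hAs (α.symm y)
    refine ⟨α a, ⟨a, ha, rfl⟩, ?_⟩
    rintro _ ⟨b, hb, rfl⟩
    have h2 : y - α a = α (α.symm y - a) := by rw [map_sub, α.apply_symm_apply]
    change (ψ.val (y - α a) (α b)).coeff 1 = 0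
    rw [h2, hα]
    exact h1 b hb

theorem finPart_map_eq {φ : HermForm G M} {ψ : HermForm G N} (α : M ≃ₗ[MonoidAlgebra ℤ G] N)
    (hα : ∀ x y, ψ.val (α x) (α y) = φ.val x y) :
    φ.finPart.map α.toLinearMap = ψ.finPart := by
  apply le_antisymm (finPart_map α hα)
  intro y hy
  have h1 := finPart_map (φ := ψ) (ψ := φ) α.symm (fun x y => by
    rw [← hα, α.apply_symm_apply, α.apply_symm_apply])
  exact ⟨α.symm y, h1 ⟨y, hy, rfl⟩, α.apply_symm_apply y⟩

/-- components of the elements of a summand of an orthogonal sum -/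
theorem snd_mem {χ : HermForm G M} {ψ : HermForm G N} (hχ : χ.Pos) (hψ : ψ.Pos)
    {B : AddSubgroup (M × N)} (hB : (oplus χ ψ).IsSummand B) {x : M} {y : N}
    (h : (x, y) ∈ B) : ((0 : M), y) ∈ B := by
  have hp := (oplus χ ψ).bil_pos (oplus_pos hχ hψ)
  have hs := (oplus χ ψ).bil_symm
  have h1 := summand_le (oplus χ ψ).bil hs hp (A := B) hB h
  have h2 : ∀ w : M × N, w ∈ AddSubgroup.closure {w | Irr (oplus χ ψ).bil w ∧ w ∈ B} →
      ((0 : M), w.2) ∈ B := by
    intro w hw
    induction hw using AddSubgroup.closure_induction with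
    | mem w hw =>
      obtain ⟨hw, hwB⟩ := hw
      by_cases h3 : w.2 = 0
      · rw [h3]; exact zero_mem B
      by_cases h4 : w.1 = 0
      · have : w = ((0 : M), w.2) := by rw [← h4]
        rw [← this]; exact hwB
      exfalso
      refine hw.2 (w.1, 0) (0, w.2) (fun h => h4 (congrArg Prod.fst h))
        (fun h => h3 (congrArg Prod.snd h)) (by simp) ?_
      exact bil_eq_zero _ (oplus_inl_inr w.1 w.2)
    | zero => exact zero_mem B
    | add a b _ _ ha hb => simpa using add_mem ha hb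
    | neg a _ ha => simpa using neg_mem ha
  exact h2 _ h1

theorem finPart_oplus {χ : HermForm G M} {ψ : HermForm G N} (hχ : χ.Pos) (hψ : ψ.Pos)
    (h1 : χ.finPart = ⊤) (h2 : ψ.finPart = ⊥) :
    (oplus χ ψ).finPart = LinearMap.range (LinearMap.inl (MonoidAlgebra ℤ G) M N) := by
  apply le_antisymm
  · unfold HermForm.finPart
    rw [Submodule.span_le]
    rintro ⟨x, y⟩ ⟨B, hB, hBs, hxy⟩
    have hy : y ∈ ψ.finPart := by
      refine Submodule.subset_span ⟨B.map (AddMonoidHom.snd M N), ?_, ?_, ⟨(x, y), hxy, rfl⟩⟩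
      · exact fg_map _ hB
      · intro n
        obtain ⟨b, hb, hbb⟩ := hBs (0, n)
        refine ⟨b.2, ⟨b, hb, rfl⟩, ?_⟩
        rintro _ ⟨c, hc, rfl⟩
        have h3 := hbb _ (snd_mem hχ hψ hBs (x := c.1) (y := c.2) hc)
        change (χ.val (0 - b.1) 0 + ψ.val (n - b.2) c.2).coeff 1 = 0 at h3
        rw [val_zero_right, zero_add] at h3
        exact h3
    rw [h2] at hy
    refine ⟨x, ?_⟩
    have : y = 0 := hy
    rw [this]; rfl
  · rintro _ ⟨x, rfl⟩
    have hx : x ∈ χ.finPart := by rw [h1]; exact Submodule.mem_top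
    unfold HermForm.finPart at hx
    induction hx using Submodule.span_induction with
    | mem x hx =>
      obtain ⟨A, hA, hAs, hxA⟩ := hx
      refine Submodule.subset_span ⟨A.map (AddMonoidHom.inl M N), fg_map _ hA, ?_,
        ⟨x, hxA, rfl⟩⟩
      rintro ⟨m, n⟩
      obtain ⟨a, ha, h3⟩ := hAs m
      refine ⟨(a, 0), ⟨a, ha, rfl⟩, ?_⟩
      rintro _ ⟨b, hb, rfl⟩
      change (χ.val (m - a) b + ψ.val (n - 0) 0).coeff 1 = 0
      rw [val_zero_right, add_zero]
      exact h3 b hb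
    | zero => rw [map_zero]; exact zero_mem _
    | add x y _ _ h3 h4 => rw [map_add]; exact add_mem h3 h4
    | smul a x _ h3 => rw [map_smul]; exact Submodule.smul_mem _ _ h3

end

section

variable {M : Type} [AddCommGroup M] [Module (MonoidAlgebra ℤ G) M]
  {M' : Type} [AddCommGroup M'] [Module (MonoidAlgebra ℤ G) M']
  {N : Type} [AddCommGroup N] [Module (MonoidAlgebra ℤ G) N]
  {N' : Type} [AddCommGroup N'] [Module (MonoidAlgebra ℤ G) N']

/-- an isometry of orthogonal sums which respects the first summands -/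
theorem isometric_parts {χ : HermForm G M} {ψ : HermForm G N} {χ' : HermForm G M'}
    {ψ' : HermForm G N'} (hχ : χ.Pos) (hψ : ψ.Pos) (hχ' : χ'.Pos) (hψ' : ψ'.Pos)
    (h1 : χ.finPart = ⊤) (h2 : ψ.finPart = ⊥) (h1' : χ'.finPart = ⊤) (h2' : ψ'.finPart = ⊥)
    (h : Isometric (oplus χ ψ) (oplus χ' ψ')) : Isometric χ χ' ∧ Isometric ψ ψ' := by
  obtain ⟨α, hα⟩ := h
  have h3 := finPart_map_eq α hα
  rw [finPart_oplus hχ hψ h1 h2, finPart_oplus hχ' hψ' h1' h2'] at h3
  have h4 : ∀ x : M, (α (x, 0)).2 = 0 := by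
    intro x
    have h5 : α (x, 0) ∈ LinearMap.range (LinearMap.inl (MonoidAlgebra ℤ G) M' N') := by
      rw [← h3]; exact ⟨(x, 0), ⟨x, rfl⟩, rfl⟩
    obtain ⟨z, hz⟩ := h5
    rw [← hz]; rfl
  have h5 : ∀ x : M', (α.symm (x, 0)).2 = 0 := by
    intro x
    have h6 : (x, (0 : N')) ∈ LinearMap.range (LinearMap.inl (MonoidAlgebra ℤ G) M' N') :=
      ⟨x, rfl⟩
    rw [← h3] at h6
    obtain ⟨_, ⟨y, rfl⟩, hy⟩ := h6
    have h7 : α.symm (x, 0) = (y, 0) := by
      rw [← hy]; exact α.symm_apply_apply _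
    rw [h7]
  have h6 : ∀ y : N, (α (0, y)).1 = 0 := by
    intro y
    by_contra hne
    obtain ⟨z, hz⟩ : ∃ z : M, α (z, 0) = ((α (0, y)).1, 0) := by
      refine ⟨(α.symm ((α (0, y)).1, 0)).1, ?_⟩
      have : ((α.symm ((α (0, y)).1, 0)).1, (0 : N)) = α.symm ((α (0, y)).1, 0) :=
        Prod.ext rfl (h5 _).symm
      rw [this, α.apply_symm_apply]
    have h7 := hα (z, 0) (0, y)
    have h8 : (oplus χ ψ).val (z, 0) (0, y) = 0 := oplus_inl_inr z y
    rw [h8, hz] at h7
    change χ'.val (α (0, y)).1 (α (0, y)).1 + ψ'.val 0 (α (0, y)).2 = 0 at h7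
    rw [val_zero_symm ψ' (val_zero_right ψ' _), add_zero] at h7
    exact absurd (bil_eq_zero χ' h7) (χ'.bil_pos hχ' _ hne).ne'
  have h7 : ∀ y : N', (α.symm (0, y)).1 = 0 := by
    intro y
    by_contra hne
    obtain ⟨z, hz⟩ : ∃ z : M', α.symm (z, 0) = ((α.symm (0, y)).1, 0) := by
      refine ⟨(α ((α.symm (0, y)).1, 0)).1, ?_⟩
      have : ((α ((α.symm (0, y)).1, 0)).1, (0 : N')) = α ((α.symm (0, y)).1, 0) :=
        Prod.ext rfl (h4 _).symm
      rw [this, α.symm_apply_apply]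
    have h7 := hα (α.symm (z, 0)) (α.symm (0, y))
    rw [α.apply_symm_apply, α.apply_symm_apply] at h7
    have h8 : (oplus χ' ψ').val (z, 0) (0, y) = 0 := oplus_inl_inr z y
    rw [h8, hz] at h7
    have h9 : χ.val (α.symm (0, y)).1 (α.symm (0, y)).1 + ψ.val 0 (α.symm (0, y)).2 = 0 :=
      h7.symm
    rw [val_zero_symm ψ (val_zero_right ψ _), add_zero] at h9
    exact absurd (bil_eq_zero χ h9) (χ.bil_pos hχ _ hne).ne'
  constructor
  · refine ⟨LinearEquiv.ofLinearMap
      ((LinearMap.fst _ _ _).comp (α.toLinearMap.comp (LinearMap.inl _ _ _)))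
      ((LinearMap.fst _ _ _).comp (α.symm.toLinearMap.comp (LinearMap.inl _ _ _))) ?_ ?_, ?_⟩
    · ext x
      change (α ((α.symm (x, 0)).1, 0)).1 = x
      have : ((α.symm (x, 0)).1, (0 : N)) = α.symm (x, 0) := Prod.ext rfl (h5 x).symm
      rw [this, α.apply_symm_apply]
    · ext x
      change (α.symm ((α (x, 0)).1, 0)).1 = x
      have : ((α (x, 0)).1, (0 : N')) = α (x, 0) := Prod.ext rfl (h4 x).symm
      rw [this, α.symm_apply_apply]
    · intro x y
      change χ'.val (α (x, 0)).1 (α (y, 0)).1 = χ.val x y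
      have h8 := hα (x, 0) (y, 0)
      change χ'.val (α (x, 0)).1 (α (y, 0)).1 + ψ'.val (α (x, 0)).2 (α (y, 0)).2
        = χ.val x y + ψ.val 0 0 at h8
      rw [h4, h4, val_zero_right, val_zero_right, add_zero, add_zero] at h8
      exact h8
  · refine ⟨LinearEquiv.ofLinearMap
      ((LinearMap.snd _ _ _).comp (α.toLinearMap.comp (LinearMap.inr _ _ _)))
      ((LinearMap.snd _ _ _).comp (α.symm.toLinearMap.comp (LinearMap.inr _ _ _))) ?_ ?_, ?_⟩
    · ext x
      change (α (0, (α.symm (0, x)).2)).2 = x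
      have : ((0 : M), (α.symm (0, x)).2) = α.symm (0, x) := Prod.ext (h7 x).symm rfl
      rw [this, α.apply_symm_apply]
    · ext x
      change (α.symm (0, (α (0, x)).2)).2 = x
      have : ((0 : M'), (α (0, x)).2) = α (0, x) := Prod.ext (h6 x).symm rfl
      rw [this, α.symm_apply_apply]
    · intro x y
      change ψ'.val (α (0, x)).2 (α (0, y)).2 = ψ.val x y
      have h8 := hα (0, x) (0, y)
      change χ'.val (α (0, x)).1 (α (0, y)).1 + ψ'.val (α (0, x)).2 (α (0, y)).2
        = χ.val 0 0 + ψ.val x y at h8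
      rw [h6, h6, val_zero_right, val_zero_right, zero_add, zero_add] at h8
      exact h8

end

section

variable {M : Type} [AddCommGroup M] [Module (MonoidAlgebra ℤ G) M]

theorem split (φ : HermForm G M) (hpos : φ.Pos)
    (hsplit : ∀ x : M, ∃ y ∈ φ.finPart, ∀ z ∈ φ.finPart, φ.val (x - y) z = 0) :
    Isometric (oplus (res φ φ.finPart) (res φ (perp φ φ.finPart))) φ := by
  have hc := isCompl_perp φ hpos φ.finPart hsplit
  refine ⟨Submodule.prodEquivOfIsCompl _ _ hc, fun x y => ?_⟩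
  rw [Submodule.coe_prodEquivOfIsCompl', Submodule.coe_prodEquivOfIsCompl']
  change φ.val (x.1 + x.2) (y.1 + y.2) = φ.val x.1 y.1 + φ.val x.2 y.2
  rw [φ.add_left, φ.add_right, φ.add_right]
  have h1 : φ.val (x.2 : M) (y.1 : M) = 0 := x.2.2 _ y.1.2
  have h2 : φ.val (x.1 : M) (y.2 : M) = 0 := val_zero_symm φ (y.2.2 _ x.1.2)
  rw [h1, h2, add_zero, zero_add]

theorem finPart_perp (φ : HermForm G M) (hpos : φ.Pos)
    (hsplit : ∀ x : M, ∃ y ∈ φ.finPart, ∀ z ∈ φ.finPart, φ.val (x - y) z = 0) :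
    (res φ (perp φ φ.finPart)).finPart = ⊥ := by
  unfold HermForm.finPart
  rw [Submodule.span_eq_bot]
  rintro x ⟨A, hA, hAs, hx⟩
  have h1 : A.map (perp φ φ.finPart).toAddSubgroup.subtype = ⊥ := by
    refine LT.no_fin φ hpos hsplit _ (fg_map _ hA) ?_ ?_
    · rintro _ ⟨a, _, rfl⟩ z hz
      exact a.2 z hz
    · intro y hy
      obtain ⟨a, ha, h2⟩ := hAs ⟨y, hy⟩
      refine ⟨a, ⟨a, ha, rfl⟩, ?_⟩
      rintro _ ⟨b, hb, rfl⟩
      exact h2 b hb
  have h2 : (x : M) ∈ A.map (perp φ φ.finPart).toAddSubgroup.subtype := ⟨x, hx, rfl⟩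
  rw [h1] at h2
  exact Subtype.ext h2

theorem perp_proj (φ : HermForm G M) (hpos : φ.Pos)
    (hsplit : ∀ x : M, ∃ y ∈ φ.finPart, ∀ z ∈ φ.finPart, φ.val (x - y) z = 0)
    [Module.Finite (MonoidAlgebra ℤ G) M] [Module.Projective (MonoidAlgebra ℤ G) M] :
    Module.Finite (MonoidAlgebra ℤ G) (perp φ φ.finPart) ∧
      Module.Projective (MonoidAlgebra ℤ G) (perp φ φ.finPart) := by
  have hc := (isCompl_perp φ hpos φ.finPart hsplit).symm
  let p := Submodule.projectionOnto _ _ hc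
  have hp : p.comp (perp φ φ.finPart).subtype = LinearMap.id := by
    ext x
    change ((p (x : M)) : M) = x
    rw [Submodule.projectionOnto_apply_of_mem_left hc x.2]
  refine ⟨Module.Finite.of_surjective p fun x => ⟨x, ?_⟩, Module.Projective.of_split _ p hp⟩
  exact LinearMap.congr_fun hp x

theorem nonsingular_perp (φ : HermForm G M) (hpos : φ.Pos)
    (hsplit : ∀ x : M, ∃ y ∈ φ.finPart, ∀ z ∈ φ.finPart, φ.val (x - y) z = 0)
    (hn : φ.Nonsingular) : (res φ (perp φ φ.finPart)).Nonsingular := by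
  have hc := (isCompl_perp φ hpos φ.finPart hsplit).symm
  let p := Submodule.projectionOnto _ _ hc
  intro f
  obtain ⟨y, hy⟩ := hn (f.comp p)
  obtain ⟨z, hz, hyz⟩ := hsplit y
  refine ⟨⟨y - z, hyz⟩, fun x => ?_⟩
  change f x = φ.val x (y - z)
  have h1 : p (x : M) = x := by
    apply Subtype.ext
    exact congrArg Subtype.val (Submodule.projectionOnto_apply_of_mem_left hc x.2)
  have h2 := hy (x : M)
  rw [LinearMap.comp_apply, h1] at h2
  rw [h2]
  have h3 : y = (y - z) + z := by abel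
  conv_lhs => rw [h3, φ.add_right]
  rw [x.2 z hz, add_zero]

end

end Pool.Agent.Q202.KS
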