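import Pool.Agent.Y75.EK.Defs

set_option autoImplicit false

/-!
Orthogonal sums, restrictions and isometries of hermitian forms over integral group rings, and
orthogonal decompositions into indecomposable submodules.
-/

namespace Pool.Agent.Q202.KS

open Pool.Agent.Y75.SV

variable {G : Type} [Group G] {M : Type} [AddCommGroup M] [Module (MonoidAlgebra ℤ G) M]
  {N : Type} [AddCommGroup N] [Module (MonoidAlgebra ℤ G) N]

/-- The forms are isometric: there is a `ℤG`-linear isomorphism which preserves the forms. -/
def Isometric (φ : HermForm G M) (ψ : HermForm G N) : Prop :=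
  ∃ α : M ≃ₗ[MonoidAlgebra ℤ G] N, ∀ x y, ψ.val (α x) (α y) = φ.val x y

/-- The orthogonal sum of two forms. -/
noncomputable def oplus (φ : HermForm G M) (ψ : HermForm G N) : HermForm G (M × N) where
  val x y := φ.val x.1 y.1 + ψ.val x.2 y.2
  add_left := by
    intro x y z
    rw [Prod.fst_add, Prod.snd_add, φ.add_left, ψ.add_left]
    abel
  smul_left := by
    intro a x y
    rw [Prod.smul_fst, Prod.smul_snd, φ.smul_left, ψ.smul_left, mul_add]
  herm := by
    intro x y g
    rw [MonoidAlgebra.coeff_add, MonoidAlgebra.coeff_add, Finsupp.add_apply, Finsupp.add_apply,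
      φ.herm x.1 y.1, ψ.herm x.2 y.2]

/-- The restriction of the form to a submodule. -/
noncomputable def res (φ : HermForm G M) (P : Submodule (MonoidAlgebra ℤ G) M) : HermForm G P where
  val x y := φ.val x y
  add_left := fun x y z => φ.add_left x y z
  smul_left := fun a x y => φ.smul_left a x y
  herm := fun x y g => φ.herm x y g

/-- The submodule `P` is not zero and not the sum of two nonzero orthogonal submodules. -/
def Indecomposable (φ : HermForm G M) (P : Submodule (MonoidAlgebra ℤ G) M) : Prop :=
  P ≠ ⊥ ∧ ∀ A C : Submodule (MonoidAlgebra ℤ G) M, A ⊔ C = P →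
    (∀ a ∈ A, ∀ c ∈ C, φ.val a c = 0) → A = ⊥ ∨ C = ⊥

/-- `M` is the sum of the pairwise orthogonal indecomposable submodules `P i`. -/
structure OrthDec (φ : HermForm G M) {ι : Type} (P : ι → Submodule (MonoidAlgebra ℤ G) M) :
    Prop where
  indec : ∀ i, Indecomposable φ (P i)
  orth : ∀ i j, i ≠ j → ∀ x ∈ P i, ∀ y ∈ P j, φ.val x y = 0
  sup : ⨆ i, P i = ⊤

end Pool.Agent.Q202.KS
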