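import Pool.Agent.Q202.KS.Uniq
import Pool.Agent.Y75.EK.Uniq

set_option autoImplicit false

/-! Existence of the orthogonal decomposition of a positive definite form. -/

namespace Pool.Agent.Q202.KS

open MonoidAlgebra Pool.Agent.Y75.SV Pool.Agent.Y75.EK

variable {G : Type} [Group G] {M : Type} [AddCommGroup M] [Module (MonoidAlgebra ℤ G) M]

theorem val_zero_right (φ : HermForm G M) (x : M) : φ.val x 0 = 0 := by
  have := φ.add_right x 0 0
  rw [add_zero] at this
  exact left_eq_add.1 this

theorem orthDec_of_decomposes (φ : HermForm G M) (hpos : φ.Pos) {k : ℕ}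
    {K : Fin k → Subgroup G} {L : Fin k → AddSubgroup M} (h : Decomposes φ K L) :
    OrthDec φ (fun i => Submodule.span (MonoidAlgebra ℤ G) (L i : Set M)) := by
  have hs := φ.bil_symm
  have hp := φ.bil_pos hpos
  have horth : ∀ i j, i ≠ j → ∀ x ∈ Submodule.span (MonoidAlgebra ℤ G) (L i : Set M),
      ∀ y ∈ Submodule.span (MonoidAlgebra ℤ G) (L j : Set M), φ.val x y = 0 := by
    intro i j hij x hx y hy
    induction hx using Submodule.span_induction with
    | mem x hx =>
      apply val_zero_symm
      induction hy using Submodule.span_induction with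
      | mem y hy =>
        ext g
        exact h.orth j i g (Or.inl hij.symm) y hy x hx
      | zero => apply val_zero_symm; exact val_zero_right φ x
      | add y z _ _ h1 h2 => rw [φ.add_left, h1, h2, add_zero]
      | smul a y _ h1 => rw [φ.smul_left, h1, mul_zero]
    | zero => apply val_zero_symm; exact val_zero_right φ y
    | add y z _ _ h1 h2 => rw [φ.add_left, h1, h2, add_zero]
    | smul a y _ h1 => rw [φ.smul_left, h1, mul_zero]
  have hsup : ⨆ i, Submodule.span (MonoidAlgebra ℤ G) (L i : Set M) = ⊤ := by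
    rw [eq_top_iff]
    intro x _
    have hx : x ∈ ⨆ p : (Σ i, G ⧸ K i), shift p.2.out (L p.1) := by
      rw [h.sup]; exact AddSubgroup.mem_top x
    refine AddSubgroup.iSup_induction _ (C := fun x => x ∈ ⨆ i,
      Submodule.span (MonoidAlgebra ℤ G) (L i : Set M)) hx ?_ (zero_mem _)
      (fun _ _ h1 h2 => add_mem h1 h2)
    rintro p x hx
    obtain ⟨y, hy, rfl⟩ := (mem_shift _ _ _).1 hx
    exact Submodule.mem_iSup_of_mem p.1 (Submodule.smul_mem _ _ (Submodule.subset_span hy))
  refine ⟨fun i => ⟨?_, fun A C hAC hAo => ?_⟩, horth, hsup⟩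
  · intro h0
    apply h.ne_bot i
    rw [eq_bot_iff]
    intro x hx
    have : x ∈ Submodule.span (MonoidAlgebra ℤ G) (L i : Set M) := Submodule.subset_span hx
    rw [h0] at this
    exact this
  · -- the whole module splits
    have hsplit : ∀ x : M, ∃ y ∈ Submodule.span (MonoidAlgebra ℤ G) (L i : Set M),
        ∀ z ∈ Submodule.span (MonoidAlgebra ℤ G) (L i : Set M), φ.val (x - y) z = 0 := by
      intro x
      have hx : x ∈ ⨆ i, Submodule.span (MonoidAlgebra ℤ G) (L i : Set M) := by
        rw [hsup]; exact Submodule.mem_top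
      refine Submodule.iSup_induction _ (motive := fun x =>
        ∃ y ∈ Submodule.span (MonoidAlgebra ℤ G) (L i : Set M),
        ∀ z ∈ Submodule.span (MonoidAlgebra ℤ G) (L i : Set M), φ.val (x - y) z = 0) hx ?_ ?_ ?_
      · intro j y hy
        by_cases hij : j = i
        · subst hij
          exact ⟨y, hy, fun b _ => by
            rw [sub_self]; apply val_zero_symm; exact val_zero_right φ b⟩
        · exact ⟨0, zero_mem _, fun b hb => by rw [sub_zero]; exact horth j i hij y hy b hb⟩
      · exact ⟨0, zero_mem _, fun b _ => by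
          rw [sub_self]; apply val_zero_symm; exact val_zero_right φ b⟩
      · rintro x y ⟨a, ha, h1⟩ ⟨a', ha', h2⟩
        refine ⟨a + a', add_mem ha ha', fun b hb => ?_⟩
        rw [add_sub_add_comm, φ.add_left, h1 b hb, h2 b hb, add_zero]
    -- summands of the piece are summands
    have key : ∀ A C : Submodule (MonoidAlgebra ℤ G) M,
        A ⊔ C = Submodule.span (MonoidAlgebra ℤ G) (L i : Set M) →
        (∀ a ∈ A, ∀ c ∈ C, φ.val a c = 0) → Y75.EK.IsSummand φ.bil A.toAddSubgroup := by
      intro A C hAC hAo x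
      obtain ⟨y, hy, h1⟩ := hsplit x
      rw [← hAC] at hy
      obtain ⟨a, ha, c, hc, rfl⟩ := Submodule.mem_sup.1 hy
      refine ⟨a, ha, fun b hb => ?_⟩
      have h2 : x - a = (x - (a + c)) + c := by abel
      have h3 : b ∈ Submodule.span (MonoidAlgebra ℤ G) (L i : Set M) := by
        rw [← hAC]; exact Submodule.mem_sup_left hb
      rw [h2, map_add, AddMonoidHom.add_apply, bil_eq_zero φ (h1 b h3),
        bil_eq_zero φ (val_zero_symm φ (hAo b hb c hc)), add_zero]
    have hAs := key A C hAC hAo
    have hCs := key C A (by rw [sup_comm]; exact hAC)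
      (fun c hc a ha => val_zero_symm φ (hAo a ha c hc))
    obtain ⟨v, hv, hvL⟩ := h.exists_irr hpos i
    have hLle : ∀ A C : Submodule (MonoidAlgebra ℤ G) M,
        A ⊔ C = Submodule.span (MonoidAlgebra ℤ G) (L i : Set M) →
        (∀ a ∈ A, ∀ c ∈ C, φ.val a c = 0) → Y75.EK.IsSummand φ.bil A.toAddSubgroup →
        v ∈ A → C = ⊥ := by
      intro A C hAC hAo hAs hvA
      have h1 : Cpt φ.bil v ≤ A.toAddSubgroup := cpt_le φ.bil hs hp hAs hvA
      rw [h.cpt_eq hpos hv hvL] at h1
      have h2 : Submodule.span (MonoidAlgebra ℤ G) (L i : Set M) ≤ A :=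
        Submodule.span_le.2 h1
      apply eq_bot_of_orth φ hpos
      intro c hc
      refine hAo c (h2 ?_) c hc
      rw [← hAC]; exact Submodule.mem_sup_right hc
    rcases irr_mem_or φ.bil hs hp hAs hv with h1 | h1
    · exact Or.inr (hLle A C hAC hAo hAs h1)
    · left
      refine hLle C A (by rw [sup_comm]; exact hAC)
        (fun c hc a ha => val_zero_symm φ (hAo a ha c hc)) hCs ?_
      have h2 : v ∈ A ⊔ C := by rw [hAC]; exact Submodule.subset_span hvL
      obtain ⟨a, ha, c, hc, hac⟩ := Submodule.mem_sup.1 h2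
      have h3 := h1 a ha
      rw [← hac, map_add, AddMonoidHom.add_apply,
        bil_eq_zero φ (val_zero_symm φ (hAo a ha c hc)), add_zero] at h3
      have h4 : a = 0 := by
        by_contra hne
        exact absurd h3 (hp a hne).ne'
      rw [h4, zero_add] at hac
      rw [← hac]; exact hc

theorem exists_orthDec (φ : HermForm G M) (hpos : φ.Pos) [Module.Finite (MonoidAlgebra ℤ G) M] :
    ∃ (k : ℕ) (P : Fin k → Submodule (MonoidAlgebra ℤ G) M), OrthDec φ P := by
  obtain ⟨k, K, L, h, _⟩ := exists_decomposition φ hpos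
  exact ⟨k, _, orthDec_of_decomposes φ hpos h⟩

end Pool.Agent.Q202.KS
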