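import Pool.Agent.Q202.KS.Exist

set_option autoImplicit false
set_option linter.unusedSectionVars false
set_option linter.style.haveILetI false

/-! Krull-Schmidt theorem and cancellation for positive definite forms. -/

namespace Pool.Agent.Q202.KS

open MonoidAlgebra Pool.Agent.Y75.SV Pool.Agent.Y75.EK

variable {G : Type} [Group G]

section

variable {M : Type} [AddCommGroup M] [Module (MonoidAlgebra ℤ G) M]
  {N : Type} [AddCommGroup N] [Module (MonoidAlgebra ℤ G) N]
  {N' : Type} [AddCommGroup N'] [Module (MonoidAlgebra ℤ G) N']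

theorem Isometric.refl (φ : HermForm G M) : Isometric φ φ := ⟨LinearEquiv.refl _ _, fun _ _ => rfl⟩

theorem Isometric.symm {φ : HermForm G M} {ψ : HermForm G N} (h : Isometric φ ψ) :
    Isometric ψ φ := by
  obtain ⟨α, hα⟩ := h
  refine ⟨α.symm, fun x y => ?_⟩
  rw [← hα, α.apply_symm_apply, α.apply_symm_apply]

theorem Isometric.trans {φ : HermForm G M} {ψ : HermForm G N} {χ : HermForm G N'}
    (h : Isometric φ ψ) (h' : Isometric ψ χ) : Isometric φ χ := by
  obtain ⟨α, hα⟩ := h
  obtain ⟨β, hβ⟩ := h'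
  exact ⟨α.trans β, fun x y => (hβ _ _).trans (hα x y)⟩

/-- restriction along an isometric embedding -/
theorem res_map {φ : HermForm G M} {ψ : HermForm G N} (P : Submodule (MonoidAlgebra ℤ G) M)
    (f : M →ₗ[MonoidAlgebra ℤ G] N) (hf : Function.Injective f)
    (hfv : ∀ x y, ψ.val (f x) (f y) = φ.val x y) : Isometric (res φ P) (res ψ (P.map f)) :=
  ⟨Submodule.equivMapOfInjective f hf P, fun x y => hfv x y⟩

theorem res_congr (φ : HermForm G M) {P Q : Submodule (MonoidAlgebra ℤ G) M} (h : P = Q) :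
    Isometric (res φ P) (res φ Q) := by
  subst h; exact Isometric.refl _

variable {φ : HermForm G M} {ι : Type} {P : ι → Submodule (MonoidAlgebra ℤ G) M}

theorem val_sum_left (φ : HermForm G M) {ι : Type} (s : Finset ι) (f : ι → M) (y : M) :
    φ.val (∑ i ∈ s, f i) y = ∑ i ∈ s, φ.val (f i) y := by
  classical
  induction s using Finset.induction_on with
  | empty => rw [Finset.sum_empty, Finset.sum_empty]; exact val_zero_symm φ (val_zero_right φ y)
  | insert a s ha ih => rw [Finset.sum_insert ha, Finset.sum_insert ha, φ.add_left, ih]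

theorem val_sum_right (φ : HermForm G M) {ι : Type} (s : Finset ι) (f : ι → M) (y : M) :
    φ.val y (∑ i ∈ s, f i) = ∑ i ∈ s, φ.val y (f i) := by
  classical
  induction s using Finset.induction_on with
  | empty => rw [Finset.sum_empty, Finset.sum_empty]; exact val_zero_right φ y
  | insert a s ha ih => rw [Finset.sum_insert ha, Finset.sum_insert ha, φ.add_right, ih]

variable [Fintype ι] [DecidableEq ι]

/-- the sum map -/
noncomputable def sumMap (P : ι → Submodule (MonoidAlgebra ℤ G) M) :
    (∀ i, P i) →ₗ[MonoidAlgebra ℤ G] M :=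
  ∑ i, (P i).subtype.comp (LinearMap.proj i)

theorem sumMap_apply (P : ι → Submodule (MonoidAlgebra ℤ G) M) (f : ∀ i, P i) :
    sumMap P f = ∑ i, (f i : M) := by
  simp [sumMap, LinearMap.sum_apply]

theorem val_sumMap (h : OrthDec φ P) (f g : ∀ i, P i) :
    φ.val (sumMap P f) (sumMap P g) = ∑ i, φ.val (f i) (g i) := by
  rw [sumMap_apply, sumMap_apply, val_sum_left]
  refine Finset.sum_congr rfl fun i _ => ?_
  rw [val_sum_right, Finset.sum_eq_single i]
  · intro j _ hj
    exact h.orth i j hj.symm _ (f i).2 _ (g j).2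
  · intro hi; exact absurd (Finset.mem_univ i) hi

theorem sumMap_bijective (h : OrthDec φ P) (hpos : φ.Pos) : Function.Bijective (sumMap P) := by
  constructor
  · rw [← LinearMap.ker_eq_bot, LinearMap.ker_eq_bot']
    intro f hf
    funext i
    by_contra hne
    have h1 : φ.val (sumMap P f) (sumMap P (Pi.single i (f i))) = φ.val (f i) (f i) := by
      rw [val_sumMap h, Finset.sum_eq_single i]
      · rw [Pi.single_eq_same]
      · intro j _ hj
        rw [Pi.single_eq_of_ne hj]
        exact val_zero_right φ _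
      · intro hi; exact absurd (Finset.mem_univ i) hi
    rw [hf, val_zero_symm φ (val_zero_right φ _)] at h1
    have h2 : (f i : M) ≠ 0 := fun h0 => hne (Subtype.ext h0)
    exact absurd (bil_eq_zero φ h1.symm) (φ.bil_pos hpos _ h2).ne'
  · rw [← LinearMap.range_eq_top, eq_top_iff, ← h.sup]
    refine iSup_le fun i x hx => ⟨Pi.single i ⟨x, hx⟩, ?_⟩
    rw [sumMap_apply, Finset.sum_eq_single i]
    · rw [Pi.single_eq_same]
    · intro j _ hj
      rw [Pi.single_eq_of_ne hj]; rfl
    · intro hi; exact absurd (Finset.mem_univ i) hi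

/-- forms with isometric pieces are isometric -/
theorem isometric_of_pieces {ψ : HermForm G N} {Q : ι → Submodule (MonoidAlgebra ℤ G) N}
    (h : OrthDec φ P) (h' : OrthDec ψ Q) (hpos : φ.Pos) (hpos' : ψ.Pos)
    (hi : ∀ i, Isometric (res φ (P i)) (res ψ (Q i))) : Isometric φ ψ := by
  choose e he using hi
  let s := LinearEquiv.ofBijective (sumMap P) (sumMap_bijective h hpos)
  let t := LinearEquiv.ofBijective (sumMap Q) (sumMap_bijective h' hpos')
  refine ⟨(s.symm.trans (LinearEquiv.piCongrRight e)).trans t, fun x y => ?_⟩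
  have h1 : ∀ x, ((s.symm.trans (LinearEquiv.piCongrRight e)).trans t) x
      = sumMap Q (fun i => e i (s.symm x i)) := fun x => rfl
  have h2 : ∀ x, x = sumMap P (s.symm x) := fun x => (s.apply_symm_apply x).symm
  rw [h1, h1, val_sumMap h']
  conv_rhs => rw [h2 x, h2 y, val_sumMap h]
  exact Finset.sum_congr rfl fun i _ => he i _ _

end

section oplus

variable {M : Type} [AddCommGroup M] [Module (MonoidAlgebra ℤ G) M]
  {N : Type} [AddCommGroup N] [Module (MonoidAlgebra ℤ G) N]
  {φ : HermForm G M} {ψ : HermForm G N}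

theorem oplus_inl (x y : M) : (oplus φ ψ).val (LinearMap.inl (MonoidAlgebra ℤ G) M N x)
    (LinearMap.inl (MonoidAlgebra ℤ G) M N y) = φ.val x y := by
  change φ.val x y + ψ.val 0 0 = _
  rw [val_zero_right, add_zero]

theorem oplus_inr (x y : N) : (oplus φ ψ).val (LinearMap.inr (MonoidAlgebra ℤ G) M N x)
    (LinearMap.inr (MonoidAlgebra ℤ G) M N y) = ψ.val x y := by
  change φ.val 0 0 + ψ.val x y = _
  rw [val_zero_right, zero_add]

theorem oplus_inl_inr (x : M) (y : N) : (oplus φ ψ).val (LinearMap.inl (MonoidAlgebra ℤ G) M N x)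
    (LinearMap.inr (MonoidAlgebra ℤ G) M N y) = 0 := by
  change φ.val x 0 + ψ.val 0 y = _
  rw [val_zero_right, val_zero_symm ψ (val_zero_right ψ y), zero_add]

theorem oplus_pos (hφ : φ.Pos) (hψ : ψ.Pos) : (oplus φ ψ).Pos := by
  rintro ⟨x, y⟩ hne
  have h1 : (oplus φ ψ).norm (x, y) = φ.norm x + ψ.norm y := rfl
  rw [h1]
  have h2 : 0 ≤ φ.norm x := by
    by_cases hx : x = 0
    · rw [hx]; unfold HermForm.norm; rw [val_zero_right]; rfl
    · exact (hφ x hx).le
  have h3 : 0 ≤ ψ.norm y := by
    by_cases hy : y = 0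
    · rw [hy]; unfold HermForm.norm; rw [val_zero_right]; rfl
    · exact (hψ y hy).le
  by_cases hx : x = 0
  · have hy : y ≠ 0 := fun hy => hne (by rw [hx, hy]; rfl)
    have := hψ y hy
    omega
  · have := hφ x hx
    omega

variable {ι κ : Type} {P : ι → Submodule (MonoidAlgebra ℤ G) M}
  {Q : κ → Submodule (MonoidAlgebra ℤ G) N}

/-- the pieces of the orthogonal sum -/
noncomputable def both (P : ι → Submodule (MonoidAlgebra ℤ G) M)
    (Q : κ → Submodule (MonoidAlgebra ℤ G) N) : ι ⊕ κ → Submodule (MonoidAlgebra ℤ G) (M × N) :=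
  Sum.elim (fun i => (P i).map (LinearMap.inl (MonoidAlgebra ℤ G) M N))
    (fun j => (Q j).map (LinearMap.inr (MonoidAlgebra ℤ G) M N))

theorem OrthDec.oplus (h : OrthDec φ P) (h' : OrthDec ψ Q) :
    OrthDec (KS.oplus φ ψ) (both P Q) := by
  refine ⟨?_, ?_, ?_⟩
  · rintro (i | j)
    · exact (h.indec i).map _ LinearMap.inl_injective oplus_inl
    · exact (h'.indec j).map _ LinearMap.inr_injective oplus_inr
  · rintro (i | i) (j | j) hij _ ⟨x, hx, rfl⟩ _ ⟨y, hy, rfl⟩
    · rw [oplus_inl]; exact h.orth i j (fun h => hij (by rw [h])) x hx y hy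
    · exact oplus_inl_inr x y
    · exact val_zero_symm _ (oplus_inl_inr y x)
    · rw [oplus_inr]; exact h'.orth i j (fun h => hij (by rw [h])) x hx y hy
  · rw [iSup_sum, eq_top_iff]
    rintro ⟨x, y⟩ _
    have h1 : (x, y) = LinearMap.inl (MonoidAlgebra ℤ G) M N x
        + LinearMap.inr (MonoidAlgebra ℤ G) M N y := by simp
    rw [h1]
    refine Submodule.add_mem_sup ?_ ?_
    · change _ ∈ ⨆ i, (P i).map (LinearMap.inl (MonoidAlgebra ℤ G) M N)
      rw [← Submodule.map_iSup, h.sup]
      exact Submodule.mem_map_of_mem Submodule.mem_top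
    · change _ ∈ ⨆ i, (Q i).map (LinearMap.inr (MonoidAlgebra ℤ G) M N)
      rw [← Submodule.map_iSup, h'.sup]
      exact Submodule.mem_map_of_mem Submodule.mem_top

end oplus

/-- a form with its module -/
structure Obj (G : Type) [Group G] where
  M : Type
  grp : AddCommGroup M
  mod : Module (MonoidAlgebra ℤ G) M
  form : HermForm G M

/-- isometry of forms with their modules -/
def ObjIso (X Y : Obj G) : Prop :=
  letI := X.grp; letI := X.mod; letI := Y.grp; letI := Y.mod
  Isometric X.form Y.form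

/-- isometry classes -/
def objSetoid (G : Type) [Group G] : Setoid (Obj G) where
  r := ObjIso
  iseqv := ⟨fun X => by letI := X.grp; letI := X.mod; exact Isometric.refl X.form,
    fun {X Y} h => by
      letI := X.grp; letI := X.mod; letI := Y.grp; letI := Y.mod
      exact Isometric.symm (φ := X.form) (ψ := Y.form) h,
    fun {X Y Z} h h' => by
      letI := X.grp; letI := X.mod; letI := Y.grp; letI := Y.mod
      letI := Z.grp; letI := Z.mod
      exact Isometric.trans (φ := X.form) (ψ := Y.form) (χ := Z.form) h h'⟩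

/-- the class of a form -/
def clsOf {M : Type} [i : AddCommGroup M] [j : Module (MonoidAlgebra ℤ G) M]
    (φ : HermForm G M) : Quotient (objSetoid G) := Quotient.mk (objSetoid G) ⟨M, i, j, φ⟩

theorem clsOf_eq {M : Type} [AddCommGroup M] [Module (MonoidAlgebra ℤ G) M]
    {N : Type} [AddCommGroup N] [Module (MonoidAlgebra ℤ G) N] {φ : HermForm G M}
    {ψ : HermForm G N} : clsOf φ = clsOf ψ ↔ Isometric φ ψ :=
  ⟨fun h => Quotient.exact (s := objSetoid G) h, fun h => Quotient.sound (s := objSetoid G) h⟩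

/-- cancellation for finite families -/
theorem cancel_families {γ : Type*} {ι ι' κ : Type} [Finite ι] [Finite ι'] [Finite κ] (t : ι → γ)
    (t' : ι' → γ) (u : κ → γ) (σ : ι ⊕ κ ≃ ι' ⊕ κ)
    (hσ : ∀ s, Sum.elim t' u (σ s) = Sum.elim t u s) :
    ∃ τ : ι ≃ ι', ∀ i, t' (τ i) = t i := by
  classical
  have := Fintype.ofFinite ι
  have := Fintype.ofFinite ι'
  have := Fintype.ofFinite κ
  have key : ∀ c : γ, Nonempty ({i // t i = c} ≃ {i // t' i = c}) := by
    intro c
    have h1 : Fintype.card {s // Sum.elim t u s = c} = Fintype.card {s // Sum.elim t' u s = c} := by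
      apply Fintype.card_congr
      refine σ.subtypeEquiv fun s => ?_
      rw [hσ]
    have h2 : ∀ {ι : Type} [Fintype ι] (t : ι → γ),
        Fintype.card {s : ι ⊕ κ // Sum.elim t u s = c}
        = Fintype.card {i // t i = c} + Fintype.card {j // u j = c} := by
      intro ι _ t
      rw [← Fintype.card_sum]
      apply Fintype.card_congr
      exact (Equiv.subtypeSum).trans (Equiv.refl _)
    rw [h2, h2] at h1
    exact ⟨Fintype.equivOfCardEq (by omega)⟩
  have e := fun c => Classical.choice (key c)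
  exact ⟨Equiv.ofFiberEquiv e, fun i => Equiv.ofFiberEquiv_map e i⟩

section main

variable {M : Type} [AddCommGroup M] [Module (MonoidAlgebra ℤ G) M]
  {M' : Type} [AddCommGroup M'] [Module (MonoidAlgebra ℤ G) M']
  {N : Type} [AddCommGroup N] [Module (MonoidAlgebra ℤ G) N]
  {φ : HermForm G M} {φ' : HermForm G M'} {ψ : HermForm G N}

theorem both_cls {ι κ : Type} (P : ι → Submodule (MonoidAlgebra ℤ G) M)
    (Q : κ → Submodule (MonoidAlgebra ℤ G) N) (s : ι ⊕ κ) :
    clsOf (res (oplus φ ψ) (both P Q s))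
      = Sum.elim (fun i => clsOf (res φ (P i))) (fun j => clsOf (res ψ (Q j))) s := by
  rcases s with i | j
  · exact clsOf_eq.2 (res_map (P i) _ LinearMap.inl_injective oplus_inl).symm
  · exact clsOf_eq.2 (res_map (Q j) _ LinearMap.inr_injective oplus_inr).symm

/-- Cancellation. -/
theorem cancel [Module.Finite (MonoidAlgebra ℤ G) M] [Module.Finite (MonoidAlgebra ℤ G) M']
    [Module.Finite (MonoidAlgebra ℤ G) N] (hφ : φ.Pos) (hφ' : φ'.Pos) (hψ : ψ.Pos)
    (h : Isometric (oplus φ ψ) (oplus φ' ψ)) : Isometric φ φ' := by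
  classical
  obtain ⟨k, P, hP⟩ := exists_orthDec φ hφ
  obtain ⟨k', P', hP'⟩ := exists_orthDec φ' hφ'
  obtain ⟨l, Q, hQ⟩ := exists_orthDec ψ hψ
  obtain ⟨α, hα⟩ := h
  obtain ⟨σ, hσ⟩ := (hP.oplus hQ).uniq (hP'.oplus hQ) (oplus_pos hφ' hψ) α hα
  obtain ⟨τ, hτ⟩ := cancel_families (fun i => clsOf (res φ (P i)))
    (fun i => clsOf (res φ' (P' i))) (fun j => clsOf (res ψ (Q j))) σ (fun s => by
      rw [← both_cls (φ := φ) (ψ := ψ) P Q s, ← both_cls (φ := φ') (ψ := ψ) P' Q (σ s), ← hσ s]
      exact clsOf_eq.2 (res_map (both P Q s) α.toLinearMap α.injective hα).symm)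
  have h2 : OrthDec φ' (fun i => P' (τ i)) := by
    refine ⟨fun i => hP'.indec _, fun i j hij => hP'.orth _ _ (fun h => hij (τ.injective h)), ?_⟩
    rw [← hP'.sup]
    exact τ.iSup_congr fun _ => rfl
  exact isometric_of_pieces hP h2 hφ hφ' fun i => clsOf_eq.1 (hτ i).symm

end main

end Pool.Agent.Q202.KS
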