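import Pool.Agent.Q202.KS.Def
import Pool.Agent.Y75.EK.Main

set_option autoImplicit false

/-! Uniqueness of the orthogonal decomposition of a positive definite form. -/

namespace Pool.Agent.Q202.KS

open MonoidAlgebra Pool.Agent.Y75.SV Pool.Agent.Y75.EK

variable {G : Type} [Group G] {M : Type} [AddCommGroup M] [Module (MonoidAlgebra ℤ G) M]
  {N : Type} [AddCommGroup N] [Module (MonoidAlgebra ℤ G) N]

theorem val_zero_symm (φ : HermForm G M) {x y : M} (h : φ.val x y = 0) : φ.val y x = 0 := by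
  ext g
  rw [φ.herm x y, h]; rfl

theorem rho_mem' (P : Submodule (MonoidAlgebra ℤ G) M) (g : G) {x : M} (hx : x ∈ P) :
    rho g x ∈ P := P.smul_mem _ hx

theorem val_eq_zero (φ : HermForm G M) (x y : M) (h : ∀ g : G, φ.bil x (rho g y) = 0) :
    φ.val x y = 0 := by
  ext g
  rw [φ.coeff_eq, h g]; rfl

theorem bil_eq_zero (φ : HermForm G M) {x y : M} (h : φ.val x y = 0) : φ.bil x y = 0 := by
  rw [φ.bil_apply, h]; rfl

/-- an indecomposable submodule is contained in a given summand or orthogonal to it -/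
theorem le_or_orth (φ : HermForm G M) (hpos : φ.Pos) {P Q : Submodule (MonoidAlgebra ℤ G) M}
    (hP : Indecomposable φ P) (hPs : Y75.EK.IsSummand φ.bil P.toAddSubgroup)
    (hQs : Y75.EK.IsSummand φ.bil Q.toAddSubgroup) :
    P ≤ Q ∨ ∀ x ∈ P, ∀ y ∈ Q, φ.val x y = 0 := by
  have hs := φ.bil_symm
  have hp := φ.bil_pos hpos
  have h1 : (P ⊓ Q) ⊔ (P ⊓ perp φ Q) = P := by
    apply le_antisymm (sup_le inf_le_left inf_le_left)
    intro x hx
    have h2 : x ∈ AddSubgroup.closure {w | Irr φ.bil w ∧ w ∈ P.toAddSubgroup} :=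
      summand_le φ.bil hs hp hPs hx
    have h3 : AddSubgroup.closure {w | Irr φ.bil w ∧ w ∈ P.toAddSubgroup} ≤
        ((P ⊓ Q) ⊔ (P ⊓ perp φ Q)).toAddSubgroup := by
      rw [AddSubgroup.closure_le]
      rintro w ⟨hw, hwP⟩
      rcases irr_mem_or φ.bil hs hp hQs hw with h | h
      · exact Submodule.mem_sup_left ⟨hwP, h⟩
      · refine Submodule.mem_sup_right ⟨hwP, fun z hz => val_eq_zero φ w z fun g => ?_⟩
        exact h _ (rho_mem' Q g hz)
    exact h3 h2
  rcases hP.2 _ _ h1 (fun a ha c hc => val_zero_symm φ (hc.2 a ha.2)) with h | h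
  · right
    rw [h, bot_sup_eq] at h1
    intro x hx
    rw [← h1] at hx
    exact hx.2
  · left
    rw [h, sup_bot_eq] at h1
    rw [← h1]
    exact inf_le_right

theorem eq_bot_of_orth (φ : HermForm G M) (hpos : φ.Pos) {P : Submodule (MonoidAlgebra ℤ G) M}
    (h : ∀ x ∈ P, φ.val x x = 0) : P = ⊥ := by
  rw [eq_bot_iff]
  intro x hx
  by_contra hne
  exact absurd (bil_eq_zero φ (h x hx)) (φ.bil_pos hpos x hne).ne'

namespace OrthDec

variable {φ : HermForm G M} {ι : Type} {P : ι → Submodule (MonoidAlgebra ℤ G) M}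

theorem summand (h : OrthDec φ P) (i : ι) : Y75.EK.IsSummand φ.bil (P i).toAddSubgroup := by
  classical
  intro x
  have hx : x ∈ ⨆ i, P i := by rw [h.sup]; exact Submodule.mem_top
  refine Submodule.iSup_induction P (motive := fun x => ∃ a ∈ (P i).toAddSubgroup,
    ∀ b ∈ (P i).toAddSubgroup, φ.bil (x - a) b = 0) hx ?_ ?_ ?_
  · intro j y hy
    by_cases hij : j = i
    · subst hij
      exact ⟨y, hy, fun b _ => by simp⟩
    · exact ⟨0, zero_mem _, fun b hb => by
        rw [sub_zero]; exact bil_eq_zero φ (h.orth j i hij y hy b hb)⟩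
  · exact ⟨0, zero_mem _, fun b _ => by simp⟩
  · rintro x y ⟨a, ha, h1⟩ ⟨a', ha', h2⟩
    refine ⟨a + a', add_mem ha ha', fun b hb => ?_⟩
    rw [add_sub_add_comm, map_add, AddMonoidHom.add_apply, h1 b hb, h2 b hb, add_zero]

theorem exists_le (h : OrthDec φ P) (hpos : φ.Pos) {Q : Submodule (MonoidAlgebra ℤ G) M}
    (hQ : Indecomposable φ Q) (hQs : Y75.EK.IsSummand φ.bil Q.toAddSubgroup) :
    ∃ i, Q ≤ P i := by
  by_contra hcon
  push Not at hcon
  apply hQ.1
  apply eq_bot_of_orth φ hpos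
  intro x hx
  have h1 : ∀ y : M, φ.val x y = 0 := by
    intro y
    have hy : y ∈ ⨆ i, P i := by rw [h.sup]; exact Submodule.mem_top
    refine Submodule.iSup_induction P (motive := fun y => φ.val x y = 0) hy ?_ ?_ ?_
    · intro i y hy
      rcases le_or_orth φ hpos hQ hQs (h.summand i) with h2 | h2
      · exact absurd h2 (hcon i)
      · exact h2 x hx y hy
    · have := φ.add_right x 0 0
      rw [add_zero] at this
      exact left_eq_add.1 this
    · intro y z hy hz
      rw [φ.add_right, hy, hz, add_zero]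
  exact h1 x

theorem inj (h : OrthDec φ P) (hpos : φ.Pos) {i j : ι} (hij : P i ≤ P j) : i = j := by
  by_contra hne
  exact (h.indec i).1 (eq_bot_of_orth φ hpos fun x hx => h.orth i j hne x hx x (hij hx))

/-- uniqueness for one module -/
theorem uniq' (h : OrthDec φ P) (hpos : φ.Pos) {κ : Type}
    {Q : κ → Submodule (MonoidAlgebra ℤ G) M} (h' : OrthDec φ Q) :
    ∃ σ : ι ≃ κ, ∀ i, P i = Q (σ i) := by
  choose f hf using fun i => h'.exists_le hpos (h.indec i) (h.summand i)
  choose g hg using fun j => h.exists_le hpos (h'.indec j) (h'.summand j)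
  have h1 : ∀ i, g (f i) = i := fun i => (h.inj hpos ((hf i).trans (hg (f i)))).symm
  have h2 : ∀ j, f (g j) = j := fun j => (h'.inj hpos ((hg j).trans (hf (g j)))).symm
  refine ⟨⟨f, g, h1, h2⟩, fun i => le_antisymm (hf i) ?_⟩
  have := hg (f i)
  rw [h1] at this
  exact this

end OrthDec

/-- transport of indecomposability along an isometric embedding -/
theorem Indecomposable.map {φ : HermForm G M} {ψ : HermForm G N}
    {P : Submodule (MonoidAlgebra ℤ G) M} (h : Indecomposable φ P)
    (f : M →ₗ[MonoidAlgebra ℤ G] N) (hf : Function.Injective f)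
    (hfv : ∀ x y, ψ.val (f x) (f y) = φ.val x y) : Indecomposable ψ (P.map f) := by
  refine ⟨fun h0 => h.1 ?_, fun A C hAC horth => ?_⟩
  · exact Submodule.map_injective_of_injective hf (by rw [h0, Submodule.map_bot])
  · have hA : (A.comap f).map f = A := by
      apply Submodule.map_comap_eq_of_le
      have : A ≤ P.map f := by rw [← hAC]; exact le_sup_left
      exact this.trans LinearMap.map_le_range
    have hC : (C.comap f).map f = C := by
      apply Submodule.map_comap_eq_of_le
      have : C ≤ P.map f := by rw [← hAC]; exact le_sup_right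
      exact this.trans LinearMap.map_le_range
    have h1 : A.comap f ⊔ C.comap f = P := by
      apply Submodule.map_injective_of_injective hf
      rw [Submodule.map_sup, hA, hC, hAC]
    rcases h.2 _ _ h1 (fun a ha c hc => by rw [← hfv]; exact horth _ ha _ hc) with h2 | h2
    · left; rw [← hA, h2, Submodule.map_bot]
    · right; rw [← hC, h2, Submodule.map_bot]

theorem OrthDec.map {φ : HermForm G M} {ψ : HermForm G N} {ι : Type}
    {P : ι → Submodule (MonoidAlgebra ℤ G) M} (h : OrthDec φ P)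
    (α : M ≃ₗ[MonoidAlgebra ℤ G] N) (hα : ∀ x y, ψ.val (α x) (α y) = φ.val x y) :
    OrthDec ψ (fun i => (P i).map α.toLinearMap) := by
  refine ⟨fun i => (h.indec i).map α.toLinearMap α.injective hα, ?_, ?_⟩
  · rintro i j hij _ ⟨x, hx, rfl⟩ _ ⟨y, hy, rfl⟩
    exact (hα x y).trans (h.orth i j hij x hx y hy)
  · rw [← Submodule.map_iSup, h.sup, Submodule.map_top]
    exact LinearEquiv.range α

/-- uniqueness -/
theorem OrthDec.uniq {φ : HermForm G M} {ψ : HermForm G N} {ι κ : Type}
    {P : ι → Submodule (MonoidAlgebra ℤ G) M} {Q : κ → Submodule (MonoidAlgebra ℤ G) N}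
    (h : OrthDec φ P) (h' : OrthDec ψ Q) (hpos : ψ.Pos)
    (α : M ≃ₗ[MonoidAlgebra ℤ G] N) (hα : ∀ x y, ψ.val (α x) (α y) = φ.val x y) :
    ∃ σ : ι ≃ κ, ∀ i, (P i).map α.toLinearMap = Q (σ i) :=
  (h.map α hα).uniq' hpos h'

end Pool.Agent.Q202.KS
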